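import Mathlib

set_option autoImplicit false

namespace Pool.Agent.Results.MP_12ef09_al.RandomFpp

open Filter Topology MeasureTheory

/-- The vertices at level `k` of the spherically homogeneous rooted tree with branching sequence `m`
(a vertex of level `i` has `m i` children). -/
abbrev Lev (m : ℕ → ℕ) (k : ℕ) : Type := (i : Fin k) → Fin (m i)

/-- The parent of a vertex. -/
def par {m : ℕ → ℕ} {k : ℕ} (v : Lev m (k + 1)) : Lev m k := fun i => v i.castSucc

/-- Families of permutations of the levels (the profinite group `Aut T` is the subgroup of those families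
that are compatible with the parent maps, see `AutT`). -/
abbrev Fam (m : ℕ → ℕ) : Type := (k : ℕ) → Equiv.Perm (Lev m k)

/-- The finite groups `Sym(L_k)` are discrete, so that `Fam m` and its subgroups have the profinite topology. -/
instance instTop (m : ℕ → ℕ) (k : ℕ) : TopologicalSpace (Equiv.Perm (Lev m k)) := ⊥

/-- `Aut T`: the automorphisms of the rooted tree, written as the inverse limit of their level actions. -/
def AutT (m : ℕ → ℕ) : Subgroup (Fam m) where
  carrier := {g | ∀ (k : ℕ) (v : Lev m (k + 1)), par (g (k + 1) v) = g k (par v)}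
  mul_mem' := by
    intro g h hg hh k v
    simp only [Pi.mul_apply, Equiv.Perm.mul_apply]
    rw [hg, hh]
  one_mem' := by intro k v; rfl
  inv_mem' := by
    intro g hg k v
    have h1 := hg k ((g (k + 1))⁻¹ v)
    have h2 : g (k + 1) ((g (k + 1))⁻¹ v) = v := (g (k + 1)).apply_symm_apply v
    rw [h2] at h1
    simp only [Pi.inv_apply]
    rw [h1]
    exact ((g k).symm_apply_apply _).symm

/-- `π_k(H)`, the group induced by `H` on level `k`. -/
def levelGroup {m : ℕ → ℕ} (H : Subgroup (Fam m)) (k : ℕ) : Subgroup (Equiv.Perm (Lev m k)) :=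
  H.map (Pi.evalMonoidHom (fun k => Equiv.Perm (Lev m k)) k)

/-- `p_k(H)`, the proportion of elements of `π_k(H)` fixing at least one vertex of level `k`. -/
noncomputable def fpProp {m : ℕ → ℕ} (H : Subgroup (Fam m)) (k : ℕ) : ℝ :=
  (Nat.card {σ : levelGroup H k // ∃ v : Lev m k, σ.1 v = v} : ℝ) / (Nat.card (levelGroup H k) : ℝ)

/-- `FPP(H) = c`. -/
def HasFPP {m : ℕ → ℕ} (H : Subgroup (Fam m)) (c : ℝ) : Prop := Tendsto (fpProp H) atTop (𝓝 c)

/-- The subgroup generated by a tuple of elements of `G`. -/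
def gen {m : ℕ → ℕ} {G : Subgroup (Fam m)} {n : ℕ} (g : Fin n → G) : Subgroup (Fam m) :=
  Subgroup.closure (Set.range fun i => (g i : Fam m))

/-- The constant branching sequence `2`. -/
abbrev two : ℕ → ℕ := fun _ => 2

/-- The group of translations. -/
def G : Subgroup (Fam two) where
  carrier := {g | g ∈ AutT two ∧ ∀ k v, g k v = v + g k 0}
  mul_mem' := by
    rintro g h ⟨hg, hg'⟩ ⟨hh, hh'⟩
    refine ⟨mul_mem hg hh, fun k v => ?_⟩
    simp only [Pi.mul_apply, Equiv.Perm.mul_apply]
    rw [hh', hg', hg' k (h k 0), add_assoc]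
  one_mem' := ⟨one_mem _, fun k v => by simp⟩
  inv_mem' := by
    rintro g ⟨hg, hg'⟩
    refine ⟨inv_mem hg, fun k v => ?_⟩
    apply (g k).injective
    have h2 : ∀ w, g k ((g⁻¹) k w) = w := fun w => (g k).apply_symm_apply w
    rw [h2, hg', add_assoc]
    have h3 := hg' k ((g⁻¹) k 0)
    rw [h2] at h3
    rw [← h3, add_zero]

theorem fin_add_self (a : Fin 2) : a + a = 0 := by revert a; decide

theorem lev_add_self {k : ℕ} (v : Lev two k) : v + v = 0 := by
  ext1 i; exact fin_add_self _

theorem G_ext {g h : Fam two} (hg : g ∈ G) (hh : h ∈ G) (H : ∀ k, g k 0 = h k 0) : g = h := by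
  ext1 k; ext1 v; rw [hg.2, hh.2, H]

theorem isClosed_G : IsClosed (G : Set (Fam two)) := by
  have hd : ∀ k, DiscreteTopology (Equiv.Perm (Lev two k)) := fun k => ⟨rfl⟩
  have : (G : Set (Fam two)) = (⋂ k, {g : Fam two | ∀ v : Lev two (k + 1), par (g (k + 1) v) = g k (par v)}) ∩
      ⋂ k, {g : Fam two | ∀ v, g k v = v + g k 0} := by
    ext g
    simp only [Set.mem_inter_iff, Set.mem_iInter, Set.mem_setOf_eq]
    rfl
  rw [this]
  refine IsClosed.inter (isClosed_iInter fun k => ?_) (isClosed_iInter fun k => ?_)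
  · have h1 : Continuous fun g : Fam two => (g (k + 1), g k) := by fun_prop
    exact (isClosed_discrete {p : Equiv.Perm (Lev two (k + 1)) × Equiv.Perm (Lev two k) |
      ∀ v : Lev two (k + 1), par (p.1 v) = p.2 (par v)}).preimage h1
  · have h1 : Continuous fun g : Fam two => g k := continuous_apply k
    exact (isClosed_discrete {p : Equiv.Perm (Lev two k) | ∀ v, p v = v + p 0}).preimage h1

/-- translation by an infinite word -/
def tr (f : ℕ → Fin 2) : Fam two := fun k => Equiv.addRight (fun i : Fin k => f i)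

theorem tr_mem (f : ℕ → Fin 2) : tr f ∈ G := by
  refine ⟨fun k v => ?_, fun k v => ?_⟩
  · ext1 i; rfl
  · simp [tr]

theorem G_trans (k : ℕ) (v w : Lev two k) : ∃ g ∈ G, g k v = w := by
  refine ⟨tr (fun i => if h : i < k then w ⟨i, h⟩ - v ⟨i, h⟩ else 0), tr_mem _, ?_⟩
  ext1 i
  simp [tr]

theorem fix_iff {H : Subgroup (Fam two)} (hH : H ≤ G) (k : ℕ) (σ : levelGroup H k) :
    (∃ v : Lev two k, σ.1 v = v) ↔ σ = 1 := by
  constructor
  · rintro ⟨v, hv⟩
    obtain ⟨σ, g, hg, rfl⟩ := σ
    apply Subtype.ext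
    ext1 w
    have h1 := (hH hg).2 k v
    have h2 : g k v = v := hv
    rw [h2] at h1
    have h3 : g k 0 = 0 := by
      have := h1
      exact (left_eq_add.mp this)
    change g k w = w
    rw [(hH hg).2 k w, h3, add_zero]
  · rintro rfl
    exact ⟨0, rfl⟩

theorem fpProp_eq {H : Subgroup (Fam two)} (hH : H ≤ G) (k : ℕ) :
    fpProp H k = 1 / (Nat.card (levelGroup H k) : ℝ) := by
  have : Nat.card {σ : levelGroup H k // ∃ v : Lev two k, σ.1 v = v} = 1 := by
    rw [Nat.card_eq_one_iff_unique]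
    refine ⟨⟨fun a b => Subtype.ext ?_⟩, ⟨⟨1, (fix_iff hH k 1).2 rfl⟩⟩⟩
    rw [(fix_iff hH k a.1).1 a.2, (fix_iff hH k b.1).1 b.2]
  rw [fpProp, this, Nat.cast_one]

theorem card_level_G (k : ℕ) : 2 ^ k ≤ Nat.card (levelGroup G k) := by
  have h1 : Function.Surjective fun σ : levelGroup G k => σ.1 (0 : Lev two k) := by
    intro w
    obtain ⟨g, hg, h⟩ := G_trans k 0 w
    exact ⟨⟨g k, g, hg, rfl⟩, h⟩
  have h2 := Nat.card_le_card_of_surjective _ h1
  have h3 : Nat.card (Lev two k) = 2 ^ k := by simp [Nat.card_eq_fintype_card]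
  rwa [h3] at h2

theorem fpp_G : HasFPP G 0 := by
  have h1 : Tendsto (fun k : ℕ => (1 / 2 : ℝ) ^ k) atTop (𝓝 0) :=
    tendsto_pow_atTop_nhds_zero_of_lt_one (by norm_num) (by norm_num)
  refine squeeze_zero (fun k => ?_) (fun k => ?_) h1
  · rw [fpProp]; positivity
  · rw [fpProp_eq le_rfl, one_div_pow]
    apply one_div_le_one_div_of_le (by positivity)
    exact_mod_cast card_level_G k

theorem gen_le {n : ℕ} (g : Fin n → G) : gen g ≤ G := by
  rw [gen, Subgroup.closure_le]
  rintro _ ⟨i, rfl⟩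
  exact (g i).2

theorem exists_coef {n : ℕ} (g : Fin n → G) (h : Fam two) (hh : h ∈ gen g) :
    ∃ c : Fin n → Bool, ∀ k, h k 0 = ∑ i, if c i then (g i : Fam two) k 0 else 0 := by
  have key : ∀ h ∈ gen g, h ∈ G ∧ ∃ c : Fin n → Bool, ∀ k, h k 0 = ∑ i, if c i then (g i : Fam two) k 0 else 0 := by
    intro h hh
    refine ⟨gen_le g hh, ?_⟩
    induction hh using Subgroup.closure_induction with
    | mem x hx =>
      obtain ⟨i, rfl⟩ := hx
      refine ⟨fun j => decide (j = i), fun k => ?_⟩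
      simp
    | one => exact ⟨fun _ => false, fun k => by simp⟩
    | mul x y hx hy ihx ihy =>
      obtain ⟨c, hc⟩ := ihx
      obtain ⟨d, hd⟩ := ihy
      refine ⟨fun i => xor (c i) (d i), fun k => ?_⟩
      have h1 : (x * y) k 0 = y k 0 + x k 0 := by
        simp only [Pi.mul_apply, Equiv.Perm.mul_apply]
        exact (gen_le g hx).2 k _
      rw [h1, hc, hd, ← Finset.sum_add_distrib]
      refine Finset.sum_congr rfl fun i _ => ?_
      cases hci : c i <;> cases hdi : d i <;> simp [hci, hdi, lev_add_self]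
    | inv x hx ihx =>
      obtain ⟨c, hc⟩ := ihx
      refine ⟨c, fun k => ?_⟩
      rw [← hc]
      have h2 : x k ((x⁻¹) k 0) = 0 := (x k).apply_symm_apply _
      rw [(gen_le g hx).2 k] at h2
      have h3 : (x⁻¹) k 0 + x k 0 = x k 0 + x k 0 := by rw [h2, lev_add_self]
      exact add_right_cancel h3
  exact (key h hh).2

theorem gen_finite {n : ℕ} (g : Fin n → G) : Finite (gen g) ∧ Nat.card (gen g) ≤ 2 ^ n := by
  choose c hc using fun h : gen g => exists_coef g h.1 h.2
  have hinj : Function.Injective c := by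
    intro a b hab
    apply Subtype.ext
    apply G_ext (gen_le g a.2) (gen_le g b.2)
    intro k
    rw [hc a, hc b, hab]
  refine ⟨Finite.of_injective c hinj, ?_⟩
  have := Nat.card_le_card_of_injective c hinj
  simpa [Nat.card_eq_fintype_card] using this

theorem eventually_ne {h : Fam two} (hh : h ∈ G) (h1 : h ≠ 1) : ∀ᶠ k in atTop, h k ≠ 1 := by
  have : ∃ k, h k ≠ 1 := by
    by_contra hc
    exact h1 (funext fun k => by_contra fun hk => hc ⟨k, hk⟩)
  obtain ⟨k, hk⟩ := this
  rw [eventually_atTop]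
  refine ⟨k, fun l hl => ?_⟩
  induction l, hl using Nat.le_induction with
  | base => exact hk
  | succ l _ ih =>
    intro hc
    apply ih
    ext1 v
    have h2 := hh.1 l (fun i => if h : i.val < l then v ⟨i, h⟩ else 0)
    rw [hc] at h2
    have h3 : par (k := l) (m := two) (fun i => if h : i.val < l then v ⟨i, h⟩ else 0) = v := by
      ext1 i; simp [par]
    simp only [Equiv.Perm.one_apply] at h2 ⊢
    rw [h3] at h2
    exact h2.symm

theorem hasFPP_gen {n : ℕ} (g : Fin n → G) : HasFPP (gen g) (1 / (Nat.card (gen g) : ℝ)) := by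
  obtain ⟨hf, -⟩ := gen_finite g
  have h1 : ∀ᶠ k in atTop, ∀ h : gen g, h ≠ 1 → h.1 k ≠ 1 := by
    rw [eventually_all]
    intro h
    by_cases hh : h = 1
    · exact Eventually.of_forall fun k hk => absurd hh hk
    · filter_upwards [eventually_ne (gen_le g h.2) (fun hc => hh (Subtype.ext hc))] with k hk _ using hk
  refine Tendsto.congr' ?_ tendsto_const_nhds
  filter_upwards [h1] with k hk
  rw [fpProp_eq (gen_le g)]
  congr 2
  have hbij : Function.Bijective (fun h : gen g => (⟨h.1 k, h.1, h.2, rfl⟩ : levelGroup (gen g) k)) := by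
    constructor
    · intro a b hab
      by_contra hne
      have h2 : a⁻¹ * b ≠ 1 := fun h => hne (inv_mul_eq_one.1 h)
      apply hk _ h2
      have h3 : a.1 k = b.1 k := congrArg Subtype.val hab
      change (a.1 k)⁻¹ * b.1 k = 1
      rw [h3, inv_mul_cancel]
    · rintro ⟨_, h, hh, rfl⟩
      exact ⟨⟨h, hh⟩, rfl⟩
  exact Nat.card_congr (Equiv.ofBijective _ hbij)

/-- There are a spherically homogeneous rooted tree `T` and a closed, level-transitive `G ≤ Aut T` with
`FPP(G) = 0` such that, for every `n`, all `n`-tuples of elements of `G` generate a subgroup `H` with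
`FPP(H) ≥ 2 ^ (-n) > 0`; in particular this happens with probability one for the Haar measure. -/
theorem result : ∃ m : ℕ → ℕ, (∀ k, 2 ≤ m k) ∧ ∃ G : Subgroup (Fam m), G ≤ AutT m ∧
    IsClosed (G : Set (Fam m)) ∧ (∀ k (v w : Lev m k), ∃ g ∈ G, g k v = w) ∧ HasFPP G 0 ∧
    (∀ (n : ℕ) (g : Fin n → G), ∃ c : ℝ, (1 / 2 : ℝ) ^ n ≤ c ∧ HasFPP (gen g) c) ∧
    ∀ (_ : MeasurableSpace G) (_ : BorelSpace G) (μ : Measure G), IsProbabilityMeasure μ →
      μ.IsHaarMeasure → ∀ n : ℕ, 1 ≤ n →
        (Measure.pi fun _ : Fin n => μ) {g : Fin n → G | ∃ c : ℝ, 0 < c ∧ HasFPP (gen g) c} = 1 := by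
  have key : ∀ (n : ℕ) (g : Fin n → G), ∃ c : ℝ, (1 / 2 : ℝ) ^ n ≤ c ∧ HasFPP (gen g) c := by
    intro n g
    refine ⟨_, ?_, hasFPP_gen g⟩
    obtain ⟨hf, hc⟩ := gen_finite g
    rw [one_div_pow]
    apply one_div_le_one_div_of_le
    · have : 0 < Nat.card (gen g) := Nat.card_pos
      exact_mod_cast this
    · exact_mod_cast hc
  refine ⟨two, fun _ => le_refl 2, G, fun g hg => hg.1, isClosed_G, G_trans, fpp_G, key, ?_⟩
  intro _ _ μ hμ _ n hn
  have : {g : Fin n → G | ∃ c : ℝ, 0 < c ∧ HasFPP (gen g) c} = Set.univ := by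
    rw [Set.eq_univ_iff_forall]
    intro g
    obtain ⟨c, h1, h2⟩ := key n g
    exact ⟨c, lt_of_lt_of_le (by positivity) h1, h2⟩
  rw [this]
  exact measure_univ

end Pool.Agent.Results.MP_12ef09_al.RandomFpp
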